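import Pool.Agent.H54.PM.Targets

/-!
# Board `pmf_modules`, row GLP: planes after gluing
-/

set_option autoImplicit false

open Pool.Agent.H54.PM
open scoped symmDiff

namespace Pool.Agent.H4.PMF

open Relation

theorem glp_mono {α : Type} {R S : α → α → Prop} {P : α → Prop}
    (hP : ∀ x y, P x → R x y → P y) (hS : ∀ x y, P x → R x y → S x y) {a b : α}
    (h : ReflTransGen R a b) (ha : P a) : ReflTransGen S a b ∧ P b := by
  induction h with
  | refl => exact ⟨ReflTransGen.refl, ha⟩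
  | tail _ hbc ih => exact ⟨ih.1.tail (hS _ _ ih.2 hbc), hP _ _ ih.2 hbc⟩

theorem ag2_trans {p : ℕ} [NeZero p] {i : Fin p} {g h k : Wd p} (h1 : ag2 i g h)
    (h2 : ag2 i h k) : ag2 i g k := fun t ht ht' => (h1 t ht ht').trans (h2 t ht ht')

theorem ag2_symm {p : ℕ} [NeZero p] {i : Fin p} {g h : Wd p} (h1 : ag2 i g h) : ag2 i h g :=
  fun t ht ht' => (h1 t ht ht').symm

theorem ag_trans {p : ℕ} [NeZero p] {i : Fin p} {g h k : Wd p} (h1 : ag i g h)
    (h2 : ag i h k) : ag i g k := fun t ht => (h1 t ht).trans (h2 t ht)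

theorem ag_symm {p : ℕ} [NeZero p] {i : Fin p} {g h : Wd p} (h1 : ag i g h) : ag i h g :=
  fun t ht => (h1 t ht).symm

theorem ag2_of {p : ℕ} [NeZero p] {i : Fin p} {g h : Wd p} (h1 : ag i g h ∨ ag (i + 1) g h) :
    ag2 i g h := by
  intro t ht ht'
  rcases h1 with h | h
  · exact h t ht
  · exact h t ht'

theorem glp_core {p : ℕ} [NeZero p] (W₁ W₂ : Finset (Wd p)) (i : Fin p) (k : Wd p)
    (P1 : Pla W₁ i k) (P2 : Pla W₂ i k) (L2 : Lin W₂)
    (hpl : ∀ g ∈ W₁, ∀ h ∈ W₂, ag2 i g h → ∃ k' ∈ W₁ ∩ W₂, ag2 i g k')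
    (hone : ∀ j, ∀ k ∈ W₁ ∩ W₂, ∀ k' ∈ W₁ ∩ W₂, ag j k k' → k = k')
    (hun : ∀ k1 ∈ W₁ ∩ W₂, ag2 i k k1 → ∀ k2 ∈ W₁ ∩ W₂, ag2 i k k2 → k2 = k1)
    (f : Wd p) (hf1 : f ∈ W₁) (hf2 : f ∉ W₂) (hkf : ag2 i k f) (g : Wd p) (hg : g ∈ W₁ ∆ W₂)
    (hkg : ag2 i k g) (hgf : g ≠ f) (h : Wd p) (hh : h ∈ W₁ ∆ W₂)
    (hkh : ag2 i k h) (hhf : h ≠ f) : ReflTransGen (st (W₁ ∆ W₂) i f) g h := by
  classical
  by_cases hK : ∃ k1 ∈ W₁ ∩ W₂, ag2 i k k1
  · obtain ⟨k1, hk1, hkk1⟩ := hK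
    have hk1' := Finset.mem_inter.1 hk1
    -- words of W₁, W₂ in the plane other than k1
    have m1 : ∀ x, x ∈ W₁ → ag2 i k x → x ≠ k1 → x ∈ W₁ ∆ W₂ := by
      intro x hx hkx hxk
      rw [Finset.mem_symmDiff]
      left
      refine ⟨hx, fun hx2 => hxk ?_⟩
      exact hun k1 hk1 hkk1 x (Finset.mem_inter.2 ⟨hx, hx2⟩) hkx
    have m2 : ∀ x, x ∈ W₂ → ag2 i k x → x ≠ k1 → x ∈ W₁ ∆ W₂ := by
      intro x hx hkx hxk
      rw [Finset.mem_symmDiff]
      right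
      refine ⟨hx, fun hx2 => hxk ?_⟩
      exact hun k1 hk1 hkk1 x (Finset.mem_inter.2 ⟨hx2, hx⟩) hkx
    have hk1f : k1 ≠ f := fun e => hf2 (e ▸ hk1'.2)
    -- connectivity in W₂
    have hB : ∀ x ∈ W₂, ∀ y ∈ W₂, ag2 i k x → ag2 i k y → x ≠ k1 → y ≠ k1 →
        ReflTransGen (st (W₁ ∆ W₂) i f) x y := by
      intro x hx y hy hkx hky hxk hyk
      have h0 := P2 k1 hk1'.2 x hx y hy hkk1 hkx hky hxk hyk
      refine (glp_mono (P := fun z => ag2 i k z) ?_ ?_ h0 hkx).1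
      · intro a b ha hab
        exact ag2_trans ha (ag2_of hab.2.2)
      · intro a b ha hab
        have hb : ag2 i k b := ag2_trans ha (ag2_of hab.2.2)
        refine ⟨m2 b hab.1 hb hab.2.1, ?_, hab.2.2⟩
        intro e
        exact hf2 (e ▸ hab.1)
    -- the partners of k1
    have hpart : ∀ j : Fin p, (j = i ∨ j = i + 1) → ∃ b ∈ W₂, b ≠ k1 ∧ ag j k1 b := by
      intro j _
      obtain ⟨b, hb, hbk, hag, _⟩ := L2 j k1 hk1'.2
      exact ⟨b, hb, hbk, hag⟩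
    have hA : ∀ x, ReflTransGen (st W₁ i f) x k1 → x ∈ W₁ → ag2 i k x → x ≠ k1 → x ≠ f →
        ∃ y ∈ W₂, ag2 i k y ∧ y ≠ k1 ∧ ReflTransGen (st (W₁ ∆ W₂) i f) x y ∧
          ReflTransGen (st (W₁ ∆ W₂) i f) y x := by
      intro x hx
      induction hx using ReflTransGen.head_induction_on with
      | refl => intro _ _ hne; exact absurd rfl hne
      | head hac hcb ih =>
        rename_i a c
        intro ha hka hak haf
        have haW : a ∈ W₁ ∆ W₂ := m1 a ha hka hak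
        have hkc : ag2 i k c := ag2_trans hka (ag2_of hac.2.2)
        by_cases hc : c = k1
        · rcases hac.2.2 with h1 | h1
          · obtain ⟨b, hb, hbk, hag⟩ := hpart i (Or.inl rfl)
            have hkb : ag2 i k b := ag2_trans hkk1 (ag2_of (Or.inl hag))
            have hab : ag i a b := ag_trans (hc ▸ h1) hag
            refine ⟨b, hb, hkb, hbk, ReflTransGen.single ⟨m2 b hb hkb hbk, ?_, Or.inl hab⟩,
              ReflTransGen.single ⟨haW, haf, Or.inl (ag_symm hab)⟩⟩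
            intro e
            exact hf2 (e ▸ hb)
          · obtain ⟨b, hb, hbk, hag⟩ := hpart (i + 1) (Or.inr rfl)
            have hkb : ag2 i k b := ag2_trans hkk1 (ag2_of (Or.inr hag))
            have hab : ag (i + 1) a b := ag_trans (hc ▸ h1) hag
            refine ⟨b, hb, hkb, hbk, ReflTransGen.single ⟨m2 b hb hkb hbk, ?_, Or.inr hab⟩,
              ReflTransGen.single ⟨haW, haf, Or.inr (ag_symm hab)⟩⟩
            intro e
            exact hf2 (e ▸ hb)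
        · obtain ⟨y, hy, hky, hyk, p1, p2⟩ := ih hac.1 hkc hc hac.2.1
          have hcW : c ∈ W₁ ∆ W₂ := m1 c hac.1 hkc hc
          refine ⟨y, hy, hky, hyk, p1.head ⟨hcW, hac.2.1, hac.2.2⟩, p2.tail ⟨haW, haf, ?_⟩⟩
          rcases hac.2.2 with h1 | h1
          · exact Or.inl (ag_symm h1)
          · exact Or.inr (ag_symm h1)
    have hC : ∀ x ∈ W₁ ∆ W₂, ag2 i k x → x ≠ f →
        ∃ y ∈ W₂, ag2 i k y ∧ y ≠ k1 ∧ ReflTransGen (st (W₁ ∆ W₂) i f) x y ∧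
          ReflTransGen (st (W₁ ∆ W₂) i f) y x := by
      intro x hx hkx hxf
      have hxk : x ≠ k1 := by
        intro e
        rw [Finset.mem_symmDiff, e] at hx
        rcases hx with h1 | h1
        · exact h1.2 hk1'.2
        · exact h1.2 hk1'.1
      rw [Finset.mem_symmDiff] at hx
      rcases hx with h1 | h1
      · have h0 := P1 f hf1 x h1.1 k1 hk1'.1 hkf hkx hkk1 hxf hk1f
        exact hA x h0 h1.1 hkx hxk hxf
      · exact ⟨x, h1.1, hkx, hxk, ReflTransGen.refl, ReflTransGen.refl⟩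
    obtain ⟨y, hy, hky, hyk, p1, _⟩ := hC g hg hkg hgf
    obtain ⟨z, hz, hkz, hzk, _, p2⟩ := hC h hh hkh hhf
    exact (p1.trans (hB y hy z hz hky hkz hyk hzk)).trans p2
  · -- no word of K in the plane
    have hW : ∀ x ∈ W₁ ∆ W₂, ag2 i k x → x ∈ W₁ := by
      intro x hx hkx
      rw [Finset.mem_symmDiff] at hx
      rcases hx with h1 | h1
      · exact h1.1
      · exfalso
        obtain ⟨k', hk', hfk⟩ := hpl f hf1 x h1.1 (ag2_trans (ag2_symm hkf) hkx)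
        exact hK ⟨k', hk', ag2_trans hkf hfk⟩
    have h0 := P1 f hf1 g (hW g hg hkg) h (hW h hh hkh) hkf hkg hkh hgf hhf
    refine (glp_mono (P := fun z => ag2 i k z) ?_ ?_ h0 hkg).1
    · intro a b ha hab
      exact ag2_trans ha (ag2_of hab.2.2)
    · intro a b ha hab
      have hb : ag2 i k b := ag2_trans ha (ag2_of hab.2.2)
      refine ⟨?_, hab.2.1, hab.2.2⟩
      rw [Finset.mem_symmDiff]
      left
      refine ⟨hab.1, fun hb2 => hK ⟨b, Finset.mem_inter.2 ⟨hab.1, hb2⟩, hb⟩⟩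

theorem pf_GLP : T_GLP := by
  classical
  intro p _ W₁ W₂ G1 G2 H i k f hf g hg h hh hkf hkg hkh hgf hhf
  by_cases hP : ∃ k1 ∈ W₁ ∩ W₂, ag2 i k k1 ∧ Pla (W₁ ∆ W₂) i k1
  · obtain ⟨k1, _, hkk1, hP⟩ := hP
    exact hP f hf g hg h hh (ag2_trans (ag2_symm hkk1) hkf) (ag2_trans (ag2_symm hkk1) hkg)
      (ag2_trans (ag2_symm hkk1) hkh) hgf hhf
  · have hun : ∀ k1 ∈ W₁ ∩ W₂, ag2 i k k1 → ∀ k2 ∈ W₁ ∩ W₂, ag2 i k k2 → k2 = k1 := by
      intro k1 hk1 hkk1 k2 hk2 hkk2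
      rcases H.pone i k1 hk1 with h1 | h1
      · exact h1 k2 hk2 (ag2_trans (ag2_symm hkk1) hkk2)
      · exact absurd ⟨k1, hk1, hkk1, h1⟩ hP
    have hf' := hf
    rw [Finset.mem_symmDiff] at hf'
    rcases hf' with h1 | h1
    · exact glp_core W₁ W₂ i k (G1.plane i k) (G2.plane i k) G2.line (H.plane i) H.one hun f
        h1.1 h1.2 hkf g hg hkg hgf h hh hkh hhf
    · have hc : W₁ ∆ W₂ = W₂ ∆ W₁ := symmDiff_comm _ _
      have hi : W₁ ∩ W₂ = W₂ ∩ W₁ := Finset.inter_comm _ _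
      rw [hc] at hg hh ⊢
      rw [hi] at hun
      refine glp_core W₂ W₁ i k (G2.plane i k) (G1.plane i k) G1.line ?_ ?_ hun f
        h1.1 h1.2 hkf g hg hkg hgf h hh hkh hhf
      · intro a ha b hb hab
        obtain ⟨k', hk', hbk⟩ := H.plane i b hb a ha (ag2_symm hab)
        exact ⟨k', by rwa [← hi], ag2_trans hab hbk⟩
      · intro j a ha b hb hab
        rw [← hi] at ha hb
        exact H.one j a ha b hb hab

end Pool.Agent.H4.PMF
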