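import Pool.Agent.H54.PM.Targets

/-!
# Board `pmf_modules`, row NOF: nonorientable surfaces, all large numbers
-/

set_option autoImplicit false

open Pool.Agent.H54.PM
open scoped symmDiff

namespace Pool.Agent.H4.PMF

/-- the invariant of the construction -/
def NofInv {p : ℕ} [NeZero p] (W S : Finset (Wd p)) : Prop :=
  Good W ∧ S ⊆ W ∧ ¬ Bip S ∧ ∃ f ∈ W, f ∉ S

theorem nof_bip {p : ℕ} [NeZero p] {W S : Finset (Wd p)} (h : S ⊆ W) (hW : Bip W) : Bip S := by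
  obtain ⟨c, hc⟩ := hW
  exact ⟨c, fun g hg k hk => hc g (h hg) k (h hk)⟩

theorem nof_bound {p : ℕ} [NeZero p] (W : Finset (Wd p)) : ∃ M : ℕ, ∀ g ∈ W, ∀ i, g i < M := by
  classical
  refine ⟨(W.sup fun g => Finset.univ.sup fun i => g i) + 1, fun g hg i => ?_⟩
  have h1 : g i ≤ Finset.univ.sup fun i => g i := Finset.le_sup (f := fun i => g i) (Finset.mem_univ i)
  have h2 : (Finset.univ.sup fun i => g i) ≤ W.sup fun g => Finset.univ.sup fun i => g i :=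
    Finset.le_sup (f := fun g : Wd p => Finset.univ.sup fun i => g i) hg
  exact Nat.lt_succ_of_le (h1.trans h2)

theorem nof_pow {p : ℕ} (hp : 5 ≤ p) :
    (2 : ℤ) ^ (p - 2) * ((p : ℤ) - 4) = 4 * ((2 ^ (p - 4) * (p - 4) : ℕ) : ℤ) ∧
    (2 : ℤ) ^ (p - 3) * ((p : ℤ) - 4) = 2 * ((2 ^ (p - 4) * (p - 4) : ℕ) : ℤ) := by
  obtain ⟨q, rfl⟩ : ∃ q, p = q + 4 := ⟨p - 4, by omega⟩
  have e1 : q + 4 - 2 = q + 2 := by omega
  have e2 : q + 4 - 3 = q + 1 := by omega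
  have e3 : q + 4 - 4 = q := by omega
  rw [e1, e2, e3]
  push_cast
  constructor
  · ring
  · ring

theorem nof_step (h1 : T_GLL) (h2 : T_GLP) (h3 : T_GLN) (h4 : T_GLC) (h6 : T_CUG) (h7 : T_CUC)
    (h8 : T_ADD) {p : ℕ} [NeZero p] (hp : 5 ≤ p) (W S : Finset (Wd p)) (hI : NofInv W S) :
    ∃ W' : Finset (Wd p), NofInv W' S ∧
      cw W' = cw W - (4 * ((2 ^ (p - 4) * (p - 4) : ℕ) : ℤ) + 2) := by
  classical
  obtain ⟨hG, hSW, hB, f, hfW, hfS⟩ := hI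
  obtain ⟨M, hM⟩ := nof_bound W
  obtain ⟨hGH, hint⟩ := h8 p W f M (by omega) hG hfW hM
  have hne : ∀ i, f i ≠ (fun _ : Fin p => M) i := fun i => (hM f hfW i).ne
  have hC := h6 p f (fun _ => M) (by omega) hne
  have hcw := h4 p W (cube f fun _ => M) (by omega) hG hC hGH
  have hcc := (h7 p f (fun _ => M) (by omega) hne).1
  obtain ⟨n1, n2⟩ := h3 p W (cube f fun _ => M) hG hC hGH
  refine ⟨W ∆ cube f (fun _ => M), ⟨⟨n1, h1 p _ _ hG hC hGH, h2 p _ _ hG hC hGH, n2⟩, ?_, hB,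
    fun _ => M, ?_, ?_⟩, ?_⟩
  · intro s hs
    rw [Finset.mem_symmDiff]
    left
    refine ⟨hSW hs, fun hc => ?_⟩
    have : s ∈ W ∩ cube f fun _ => M := Finset.mem_inter.2 ⟨hSW hs, hc⟩
    rw [hint, Finset.mem_singleton] at this
    exact hfS (this ▸ hs)
  · rw [Finset.mem_symmDiff]
    right
    constructor
    · rw [cube, Fintype.mem_piFinset]
      intro i
      simp
    · intro hc
      exact absurd (hM _ hc 0) (lt_irrefl _)
  · intro hc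
    exact absurd (hM _ (hSW hc) 0) (lt_irrefl _)
  · rw [hcw, hcc, hint]
    obtain ⟨e1, _⟩ := nof_pow hp
    have e3 : ∀ i : Fin p, ((({f} : Finset (Wd p)).image (rs2 i)).card : ℤ) = 1 := by
      intro i
      simp
    rw [Finset.sum_congr rfl fun i _ => e3 i, e1]
    simp only [Finset.sum_const, Finset.card_univ, Fintype.card_fin, Finset.card_singleton]
    push_cast
    rw [nsmul_eq_mul]
    ring

theorem nof_iter (h1 : T_GLL) (h2 : T_GLP) (h3 : T_GLN) (h4 : T_GLC) (h6 : T_CUG) (h7 : T_CUC)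
    (h8 : T_ADD) {p : ℕ} [NeZero p] (hp : 5 ≤ p) (W S : Finset (Wd p)) (hI : NofInv W S) (s : ℕ) :
    ∃ W' : Finset (Wd p), NofInv W' S ∧
      cw W' = cw W - s * (4 * ((2 ^ (p - 4) * (p - 4) : ℕ) : ℤ) + 2) := by
  induction s with
  | zero => exact ⟨W, hI, by simp⟩
  | succ s ih =>
    obtain ⟨W1, hI1, e1⟩ := ih
    obtain ⟨W2, hI2, e2⟩ := nof_step h1 h2 h3 h4 h6 h7 h8 hp W1 S hI1
    refine ⟨W2, hI2, ?_⟩
    rw [e2, e1]
    push_cast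
    ring

theorem nof_arith (E X : ℕ) (hE : 0 < E) (hX : 2 * (E * (2 * E + 7)) + 6 ≤ X) :
    ∃ c m s : ℕ, (c = 5 ∨ c = 6) ∧ 2 ≤ m ∧ X = (m + 4) * (2 * E) + c + s * (4 * E + 2) := by
  obtain ⟨c, hc, Y, hY⟩ : ∃ c : ℕ, (c = 5 ∨ c = 6) ∧ ∃ Y, X = 2 * Y + c := by
    rcases Nat.even_or_odd' X with ⟨k, hk | hk⟩
    · exact ⟨6, Or.inr rfl, k - 3, by omega⟩
    · exact ⟨5, Or.inl rfl, k - 2, by omega⟩
  have hY1 : E * (2 * E + 7) ≤ Y := by
    rcases hc with h | h <;> omega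
  have hq : 2 * E + 7 ≤ Y / E := by
    rw [Nat.le_div_iff_mul_le hE, mul_comm]
    exact hY1
  have hs : Y % E < E := Nat.mod_lt _ hE
  obtain ⟨m, hm⟩ : ∃ m : ℕ, Y / E = m + 4 + 2 * (Y % E) := ⟨Y / E - 4 - 2 * (Y % E), by omega⟩
  refine ⟨c, m, Y % E, hc, by omega, ?_⟩
  have h0 : E * (Y / E) + Y % E = Y := Nat.div_add_mod Y E
  rw [hY]
  have h1 : Y = E * (m + 4 + 2 * (Y % E)) + Y % E := by rw [← hm]; exact h0.symm
  generalize Y % E = r at *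
  rw [h1]
  ring

theorem pf_NOF (h1 : T_GLL) (h2 : T_GLP) (h3 : T_GLN) (h4 : T_GLC) (h6 : T_CUG) (h7 : T_CUC)
    (h8 : T_ADD) (h14 : T_NG1) (h15 : T_NG3) (h16 : T_NNB) : T_NOF := by
  classical
  intro p _ hp
  have hE : 0 < 2 ^ (p - 4) * (p - 4) := Nat.mul_pos (by positivity) (by omega)
  refine ⟨2 * ((2 ^ (p - 4) * (p - 4)) * (2 * (2 ^ (p - 4) * (p - 4)) + 7)) + 6, fun X hX => ?_⟩
  obtain ⟨c, m, s, hc, hm, hXe⟩ := nof_arith (2 ^ (p - 4) * (p - 4)) X hE hX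
  have hbase : ∃ W S : Finset (Wd p), NofInv W S ∧
      cw W = -(((m : ℤ) + 4) * (2 * ((2 ^ (p - 4) * (p - 4) : ℕ) : ℤ))) - c := by
    obtain ⟨_, e2⟩ := nof_pow hp
    rcases hc with hc | hc
    · obtain ⟨g1, g2⟩ := h14 p m hp hm
      have hv : (Fin.ofNat p 1).val = 1 := by
        rw [Fin.val_ofNat]
        exact Nat.mod_eq_of_lt (by omega)
      obtain ⟨_, S, hS, hB, hf⟩ := h16 p m (Fin.ofNat p 1) hp hm (Or.inl hv)
      refine ⟨_, S, ⟨g1, hS, hB, hf⟩, ?_⟩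
      rw [g2, mul_assoc, e2, hc]
      norm_num
    · obtain ⟨g1, g2⟩ := h15 p m hp hm
      have hv : (Fin.ofNat p 3).val = 3 := by
        rw [Fin.val_ofNat]
        exact Nat.mod_eq_of_lt (by omega)
      obtain ⟨_, S, hS, hB, hf⟩ := h16 p m (Fin.ofNat p 3) hp hm (Or.inr hv)
      refine ⟨_, S, ⟨g1, hS, hB, hf⟩, ?_⟩
      rw [g2, mul_assoc, e2, hc]
      norm_num
  obtain ⟨W, S, hI, hW⟩ := hbase
  obtain ⟨W', ⟨hG', hS', hB', _⟩, hW'⟩ := nof_iter h1 h2 h3 h4 h6 h7 h8 hp W S hI s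
  refine ⟨W', hG', fun hb => hB' (nof_bip hS' hb), ?_⟩
  rw [hW', hW, hXe]
  push_cast
  ring

end Pool.Agent.H4.PMF
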